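import Mathlib
import Pool.Agent.H730R3.GStruct

set_option autoImplicit false
set_option linter.all false

/-! A graph has boundedly many twin classes, or it has many disjoint triples `a, b, w` with `w`
distinguishing `a` from `b` and from no other pair of the family, the pairs lying in a homogeneous
set. -/

namespace Pool.Agent.Q310.ZS

open Finset Pool.Agent.H730R3

/-- peeling: in a set of `2 ^ t` vertices which are pairwise distinguished from outside `U`, there is
a sequence in which each vertex is distinguished from all later ones by one outside vertex -/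
theorem peel_seq {V : Type} (G : SimpleGraph V) (U : Finset V) (t : ℕ) :
    ∀ U' : Finset V, U' ⊆ U →
    (∀ x ∈ U', ∀ y ∈ U', x ≠ y → ∃ w, w ∉ U ∧ ¬ (G.Adj x w ↔ G.Adj y w)) →
    2 ^ t ≤ U'.card →
    ∃ u w : ℕ → V, (∀ i < t, u i ∈ U' ∧ w i ∉ U) ∧
      ∀ i j, i < j → j < t → (G.Adj (u j) (w i) ↔ ¬ G.Adj (u i) (w i)) := by
  classical
  induction t with
  | zero =>
    intro U' _ _ hc
    have hne : U'.Nonempty := by rw [← card_pos]; simpa using hc
    obtain ⟨x, hx⟩ := hne
    exact ⟨fun _ => x, fun _ => x, by simp, by simp⟩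
  | succ t ih =>
    intro U' hU' hd hc
    have hc2 : 2 ^ (t + 1) = 2 ^ t + 2 ^ t := by ring
    have hpos : 0 < 2 ^ t := by positivity
    obtain ⟨x, hx, y, hy, hxy⟩ := Finset.one_lt_card.1 (by omega : 1 < U'.card)
    obtain ⟨w0, hw0, hdw⟩ := hd x hx y hy hxy
    -- the two parts
    have main : ∀ (p : Prop), (∃ z ∈ U', (G.Adj z w0 ↔ ¬ p)) →
        ∀ Up : Finset V, Up ⊆ U' → (∀ z ∈ Up, (G.Adj z w0 ↔ p)) → 2 ^ t ≤ Up.card →
        ∃ u w : ℕ → V, (∀ i < t + 1, u i ∈ U' ∧ w i ∉ U) ∧
          ∀ i j, i < j → j < t + 1 → (G.Adj (u j) (w i) ↔ ¬ G.Adj (u i) (w i)) := by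
      rintro p ⟨z, hz, hzp⟩ Up hUp hUpp hcp
      obtain ⟨u, w, h1, h2⟩ := ih Up (hUp.trans hU')
        (fun x hx y hy hxy => hd x (hUp hx) y (hUp hy) hxy) hcp
      refine ⟨fun n => Nat.casesOn n z u, fun n => Nat.casesOn n w0 w, ?_, ?_⟩
      · intro i hi
        cases i with
        | zero => exact ⟨hz, hw0⟩
        | succ i => exact ⟨hUp (h1 i (by omega)).1, (h1 i (by omega)).2⟩
      · intro i j hij hj
        cases j with
        | zero => omega
        | succ j =>
          cases i with
          | zero =>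
            have h3 := hUpp _ (h1 j (by omega)).1
            show G.Adj (u j) w0 ↔ ¬ G.Adj z w0
            rw [h3, hzp, not_not]
          | succ i => exact h2 i j (by omega) (by omega)
    have hsum := Finset.card_filter_add_card_filter_not (s := U') (fun z => G.Adj z w0)
    by_cases hbig : 2 ^ t ≤ (U'.filter (fun z => G.Adj z w0)).card
    · apply main True _ _ (filter_subset _ _) _ hbig
      · by_cases hxa : G.Adj x w0
        · refine ⟨y, hy, ?_⟩
          have : ¬ G.Adj y w0 := fun h => hdw ⟨fun _ => h, fun _ => hxa⟩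
          simp [this]
        · exact ⟨x, hx, by simp [hxa]⟩
      · intro z hz
        simp [(mem_filter.1 hz).2]
    · apply main False _ (U'.filter (fun z => ¬ G.Adj z w0)) (filter_subset _ _)
      · intro z hz
        simp [(mem_filter.1 hz).2]
      · omega
      · by_cases hxa : G.Adj x w0
        · exact ⟨x, hx, by simp [hxa]⟩
        · refine ⟨y, hy, ?_⟩
          have : G.Adj y w0 := by
            by_contra h
            exact hdw ⟨fun h' => absurd h' hxa, fun h' => absurd h' h⟩
          simp [this]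

theorem gstruct2 (T : ℕ) : ∃ Q : ℕ, ∀ (V : Type) [Fintype V] (G : SimpleGraph V),
    (∃ cl : V → Fin Q, ∀ u v, cl u = cl v → Twin G u v) ∨
    (∃ c : Fin T → Fin 3 → V, Function.Injective (fun p : Fin T × Fin 3 => c p.1 p.2) ∧
      (∀ i, ¬ (G.Adj (c i 0) (c i 2) ↔ G.Adj (c i 1) (c i 2))) ∧
      (∀ i j, i ≠ j → (G.Adj (c i 0) (c j 2) ↔ G.Adj (c i 1) (c j 2))) ∧
      ∃ (U : Finset V) (b : Prop), (∀ i, c i 0 ∈ U ∧ c i 1 ∈ U) ∧
        ∀ u ∈ U, ∀ v ∈ U, u ≠ v → (G.Adj u v ↔ b)) := by
  classical
  obtain ⟨N1, hN1⟩ := ramsey Bool (2 * T)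
  obtain ⟨N, hN⟩ := ramsey_symm Bool (2 ^ N1)
  refine ⟨N + 1, ?_⟩
  intro V _ G
  obtain ⟨W, hW, hWmax⟩ := Finset.exists_max_image
    ((univ : Finset (Finset V)).filter (fun W => ∀ u ∈ W, ∀ v ∈ W, u ≠ v → ¬ Twin G u v))
    (fun W => W.card) ⟨∅, by simp⟩
  have hWn := (mem_filter.1 hW).2
  by_cases hlt : W.card < N + 1
  · left
    have hex : ∀ v : V, ∃ w ∈ W, Twin G v w := by
      intro v
      by_cases hv : v ∈ W
      · exact ⟨v, hv, Twin.refl G v⟩
      · by_contra hcon
        push Not at hcon
        have h1 := hWmax (insert v W) (mem_filter.2 ⟨mem_univ _, by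
          intro u hu u' hu' huu
          rcases mem_insert.1 hu with h | h
          · rcases mem_insert.1 hu' with h' | h'
            · exact absurd (h.trans h'.symm) huu
            · rw [h]; exact hcon u' h'
          · rcases mem_insert.1 hu' with h' | h'
            · rw [h']
              intro ht
              exact hcon u h (fun w hw1 hw2 => (ht w hw2 hw1).symm)
            · exact hWn u h u' h' huu⟩)
        rw [card_insert_of_notMem hv] at h1
        omega
    choose w hw1 hw2 using hex
    refine ⟨fun v => Fin.castLE (by omega) (W.equivFin ⟨w v, hw1 v⟩), ?_⟩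
    intro u v huv
    have h1 := Fin.castLE_injective _ huv
    have h2 := W.equivFin.injective h1
    have h3 : w u = w v := congrArg Subtype.val h2
    have h4 := hw2 v
    rw [← h3] at h4
    exact Twin.trans' (hw2 u) h4
  · right
    push Not at hlt
    obtain ⟨U, hUW, hUc, γ, hγ⟩ := hN V (fun u v => decide (G.Adj u v))
      (by intro x y; simp [G.adj_comm]) W (by omega)
    have hhom : ∀ u ∈ U, ∀ v ∈ U, u ≠ v → (G.Adj u v ↔ γ = true) := by
      intro u hu v hv huv
      have := hγ u hu v hv huv
      rw [← this]; simp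
    have hd : ∀ x ∈ U, ∀ y ∈ U, x ≠ y → ∃ w, w ∉ U ∧ ¬ (G.Adj x w ↔ G.Adj y w) := by
      intro x hx y hy hxy
      have hnt := hWn x (hUW hx) y (hUW hy) hxy
      unfold Twin at hnt
      push Not at hnt
      obtain ⟨w, hwx, hwy, hw⟩ := hnt
      have hw' : ¬ (G.Adj x w ↔ G.Adj y w) := by tauto
      refine ⟨w, ?_, hw'⟩
      intro h
      apply hw'
      rw [hhom x hx w h (Ne.symm hwx), hhom y hy w h (Ne.symm hwy)]
    obtain ⟨u, w, h1, h2⟩ := peel_seq G U N1 U (Subset.refl _) hd hUc.ge
    obtain ⟨T', hT's, hT'c, α, hα⟩ := hN1 ℕ (fun i j => decide (G.Adj (u i) (w j))) (range N1)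
      (by rw [card_range])
    have hα' : ∀ i ∈ T', ∀ j ∈ T', i < j → (G.Adj (u i) (w j) ↔ α = true) := by
      intro i hi j hj hij
      have := hα i hi j hj hij
      rw [← this]; simp
    have hlt' : ∀ i ∈ T', i < N1 := fun i hi => mem_range.1 (hT's hi)
    let e := T'.orderEmbOfFin hT'c
    have heT : ∀ n, e n ∈ T' := fun n => T'.orderEmbOfFin_mem hT'c n
    let a : Fin T → ℕ := fun i => e ⟨2 * i.1, by omega⟩
    let b : Fin T → ℕ := fun i => e ⟨2 * i.1 + 1, by omega⟩
    have haT : ∀ i, a i ∈ T' := fun i => heT _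
    have hbT : ∀ i, b i ∈ T' := fun i => heT _
    have hab : ∀ i, a i < b i := fun i => e.strictMono (by rw [Fin.lt_def]; simp)
    have hba : ∀ i j : Fin T, i < j → b i < a j := by
      intro i j hij
      apply e.strictMono
      rw [Fin.lt_def] at *
      show 2 * i.1 + 1 < 2 * j.1
      omega
    have hab_ne : ∀ i j : Fin T, a i ≠ b j := by
      intro i j h
      have := congrArg Fin.val (e.injective h)
      simp only at this
      omega
    have ha_inj : ∀ i j : Fin T, a i = a j → i = j := by
      intro i j h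
      have := congrArg Fin.val (e.injective h)
      simp only at this
      exact Fin.ext (by omega)
    have hb_inj : ∀ i j : Fin T, b i = b j → i = j := by
      intro i j h
      have := congrArg Fin.val (e.injective h)
      simp only at this
      exact Fin.ext (by omega)
    have hu_inj : ∀ i ∈ T', ∀ j ∈ T', u i = u j → i = j := by
      have key : ∀ i ∈ T', ∀ j ∈ T', i < j → u i ≠ u j := by
        intro i hi j hj hij h
        have := h2 i j hij (hlt' j hj)
        rw [h] at this
        tauto
      intro i hi j hj h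
      rcases lt_trichotomy i j with h' | h' | h'
      · exact absurd h (key i hi j hj h')
      · exact h'
      · exact absurd h.symm (key j hj i hi h')
    have hdist : ∀ i, ¬ (G.Adj (u (a i)) (w (a i)) ↔ G.Adj (u (b i)) (w (a i))) := by
      intro i
      have := h2 (a i) (b i) (hab i) (hlt' _ (hbT i))
      tauto
    have hcross : ∀ i j, i ≠ j → (G.Adj (u (a i)) (w (a j)) ↔ G.Adj (u (b i)) (w (a j))) := by
      intro i j hij
      rcases lt_or_gt_of_ne hij with h | h
      · -- i < j
        rw [hα' _ (haT i) _ (haT j) ((hab i).trans (hba i j h)),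
          hα' _ (hbT i) _ (haT j) (hba i j h)]
      · -- j < i
        rw [h2 (a j) (a i) ((hab j).trans (hba j i h)) (hlt' _ (haT i)),
          h2 (a j) (b i) (((hab j).trans (hba j i h)).trans (hab i)) (hlt' _ (hbT i))]
    have hw_inj : ∀ i j : Fin T, w (a i) = w (a j) → i = j := by
      intro i j h
      by_contra hij
      have h3 := hcross i j hij
      rw [← h] at h3
      exact hdist i h3
    have huU : ∀ i ∈ T', u i ∈ U := fun i hi => (h1 i (hlt' i hi)).1
    have hwU : ∀ i ∈ T', w i ∉ U := fun i hi => (h1 i (hlt' i hi)).2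
    refine ⟨fun i => ![u (a i), u (b i), w (a i)], ?_, ?_, ?_, U, γ = true, ?_, hhom⟩
    · rintro ⟨i, x⟩ ⟨j, y⟩ h
      have hgoal : i = j ∧ x = y := by
        fin_cases x <;> fin_cases y <;> simp at h ⊢
        · exact ha_inj i j (hu_inj _ (haT i) _ (haT j) h)
        · exact absurd (hu_inj _ (haT i) _ (hbT j) h) (hab_ne i j)
        · exact absurd (huU _ (haT i)) (by rw [h]; exact hwU _ (haT j))
        · exact absurd (hu_inj _ (hbT i) _ (haT j) h) (Ne.symm (hab_ne j i))
        · exact hb_inj i j (hu_inj _ (hbT i) _ (hbT j) h)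
        · exact absurd (huU _ (hbT i)) (by rw [h]; exact hwU _ (haT j))
        · exact absurd (huU _ (haT j)) (by rw [← h]; exact hwU _ (haT i))
        · exact absurd (huU _ (hbT j)) (by rw [← h]; exact hwU _ (haT i))
        · exact hw_inj i j h
      rw [hgoal.1, hgoal.2]
    · intro i
      simpa using hdist i
    · intro i j hij
      simpa using hcross i j hij
    · intro i
      exact ⟨huU _ (haT i), huU _ (hbT i)⟩

end Pool.Agent.Q310.ZS
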