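import Mathlib
import Pool.Agent.Q310.ZS.Gen
import Pool.Agent.H730R3.PrimeStep

set_option autoImplicit false
set_option linter.all false

/-! The final step over an arbitrary finite abelian group: the sum, which lies in the subgroup `H`, is
brought to `0` by swaps inside gadgets, one family of gadgets for every proper subgroup of `H`. -/

namespace Pool.Agent.Q310.ZS

open Finset Pool.Agent.H730R3

/-- If every proper subgroup `M` of `H` misses `k * |A|` of the elements `D j ∈ H`, then every element of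
`H` is a sum of some of them. -/
theorem subset_sum {A J : Type} [AddCommGroup A] [Fintype A] [Fintype J]
    (k : ℕ) (hk : 0 < k) (hA : ∀ a : A, k • a = 0) (H : AddSubgroup A)
    (μ : J → AddSubgroup A) (D : J → A) (hD : ∀ j, D j ∈ H) (hDμ : ∀ j, D j ∉ μ j)
    (hN : ∀ M < H, ∃ J' : Finset J, k * Fintype.card A ≤ J'.card ∧ ∀ j ∈ J', μ j = M) (s : A)
    (hs : s ∈ H) : ∃ Y : Finset J, ∑ j ∈ Y, D j = s := by
  classical
  let Q : A → Prop := fun d => k ≤ (univ.filter (fun j => D j = d)).card
  let L := AddSubgroup.closure {d | Q d}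
  have hHL : H ≤ L := by
    by_contra hnot
    have hM : L ⊓ H < H := by
      refine lt_of_le_of_ne inf_le_right ?_
      intro h
      exact hnot (by rw [← h]; exact inf_le_left)
    obtain ⟨J', hJ'c, hJ'⟩ := hN _ hM
    obtain ⟨d, -, hd⟩ := Finset.exists_le_card_fiber_of_mul_le_card_of_maps_to
      (s := J') (t := (univ : Finset A)) (f := D) (n := k)
      (fun _ _ => mem_univ _) univ_nonempty (by rw [card_univ, mul_comm]; exact hJ'c)
    have hdQ : Q d := hd.trans (card_le_card (fun j hj =>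
      mem_filter.2 ⟨mem_univ _, (mem_filter.1 hj).2⟩))
    obtain ⟨j, hj⟩ := card_pos.1 (lt_of_lt_of_le hk hd)
    rw [mem_filter] at hj
    apply hDμ j
    rw [hJ' j hj.1]
    refine ⟨?_, hD j⟩
    rw [hj.2]
    exact AddSubgroup.subset_closure hdQ
  have hsL : s ∈ L := hHL hs
  -- coefficients
  have hmod : ∀ (n : ℕ) (a : A), (n % k) • a = n • a := by
    intro n a
    conv_rhs => rw [← Nat.mod_add_div n k]
    rw [add_smul, nsmul_zero_of_dvd hA (k * (n / k)) (Dvd.intro _ rfl), add_zero]
  have hcoef : ∃ t : A → ℕ, (∀ d, t d ≤ k ∧ (t d ≠ 0 → Q d)) ∧ ∑ d, t d • d = s := by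
    refine AddSubgroup.closure_induction (p := fun s _ => ∃ t : A → ℕ,
      (∀ d, t d ≤ k ∧ (t d ≠ 0 → Q d)) ∧ ∑ d, t d • d = s) ?_ ?_ ?_ ?_ hsL
    · intro x hx
      refine ⟨fun d => if d = x then 1 else 0, ?_, ?_⟩
      · intro d
        by_cases h : d = x
        · subst h
          refine ⟨by simp; omega, fun _ => hx⟩
        · simp [h]
      · simp
    · exact ⟨fun _ => 0, by simp, by simp⟩
    · rintro x y _ _ ⟨t, ht, ht'⟩ ⟨r, hr, hr'⟩
      refine ⟨fun d => (t d + r d) % k, ?_, ?_⟩
      · intro d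
        refine ⟨(Nat.mod_lt _ hk).le, ?_⟩
        intro h
        by_cases h1 : t d = 0
        · by_cases h2 : r d = 0
          · simp [h1, h2] at h
          · exact (hr d).2 h2
        · exact (ht d).2 h1
      · rw [← ht', ← hr', ← sum_add_distrib]
        refine sum_congr rfl fun d _ => ?_
        rw [hmod, add_smul]
    · rintro x _ ⟨t, ht, ht'⟩
      refine ⟨fun d => ((k - 1) * t d) % k, ?_, ?_⟩
      · intro d
        refine ⟨(Nat.mod_lt _ hk).le, ?_⟩
        intro h
        by_cases h1 : t d = 0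
        · simp [h1] at h
        · exact (ht d).2 h1
      · rw [← ht', ← sum_neg_distrib]
        refine sum_congr rfl fun d _ => ?_
        rw [hmod]
        have h1 : ((k - 1) * t d) • d + t d • d = 0 := by
          rw [← add_smul]
          have : (k - 1) * t d + t d = k * t d := by
            obtain ⟨k', rfl⟩ : ∃ k', k = k' + 1 := ⟨k - 1, by omega⟩
            simp
            ring
          rw [this]
          exact nsmul_zero_of_dvd hA _ (Dvd.intro _ rfl) d
        exact eq_neg_of_add_eq_zero_left h1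
  obtain ⟨t, ht, hts⟩ := hcoef
  have hex : ∀ d, ∃ Y ⊆ univ.filter (fun j => D j = d), Y.card = t d := by
    intro d
    apply Finset.exists_subset_card_eq
    by_cases h : t d = 0
    · rw [h]; exact Nat.zero_le _
    · exact (ht d).1.trans ((ht d).2 h)
  choose Y hY hYc using hex
  refine ⟨univ.biUnion Y, ?_⟩
  rw [sum_biUnion]
  · rw [← hts]
    refine sum_congr rfl fun d _ => ?_
    rw [← hYc d, ← sum_const]
    exact sum_congr rfl fun j hj => (mem_filter.1 (hY d hj)).2
  · intro d _ d' _ hdd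
    rw [Function.onFun, disjoint_left]
    intro j hj hj'
    exact hdd (((mem_filter.1 (hY d hj)).2).symm.trans (mem_filter.1 (hY d' hj')).2)

theorem finalStep {V X A J : Type} [Fintype V] [DecidableEq V] [AddCommGroup A] [Fintype A]
    [Fintype J]
    (k : ℕ) (hk : 0 < k) (hA : ∀ a : A, k • a = 0)
    (G : SimpleGraph V) [DecidableRel G.Adj] (f : Sym2 X → A) (H : AddSubgroup A)
    (μ : J → AddSubgroup A) (X1 : Set X) (φ : V → X) (hφi : Function.Injective φ)
    (hφX : ∀ v, φ v ∈ X1) (c : J → Fin 4 → V)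
    (hc : Function.Injective (fun p : J × Fin 4 => c p.1 p.2)) (b : Prop)
    (hb : ∀ i j, i ≠ j → (G.Adj (c i 0) (c j 0) ↔ b) ∧ (G.Adj (c i 0) (c j 1) ↔ b) ∧
      (G.Adj (c i 1) (c j 0) ↔ b) ∧ (G.Adj (c i 1) (c j 1) ↔ b))
    (hcross : ∀ i j, i ≠ j → (G.Adj (c i 0) (c j 2) ↔ G.Adj (c i 1) (c j 2)))
    (hdist : ∀ i, ¬ (G.Adj (c i 0) (c i 2) ↔ G.Adj (c i 1) (c i 2)))
    (hiso : ∀ i v, ¬ G.Adj v (c i 3))
    (htw1 : ∀ i, ∀ x ∈ X1, x ≠ φ (c i 0) → x ≠ φ (c i 1) →
      f s(x, φ (c i 0)) - f s(x, φ (c i 1)) ∈ H)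
    (htw2 : ∀ i, ∀ x ∈ X1, x ≠ φ (c i 2) → x ≠ φ (c i 3) →
      f s(x, φ (c i 2)) - f s(x, φ (c i 3)) ∈ H)
    (hdel : ∀ i, Del f (φ (c i 0)) (φ (c i 1)) (φ (c i 2)) (φ (c i 3)) ∉ μ i)
    (hS : S G f φ ∈ H)
    (hN : ∀ M < H, ∃ J' : Finset J, k * Fintype.card A ≤ J'.card ∧ ∀ j ∈ J', μ j = M) :
    ∃ φ' : V → X, Function.Injective φ' ∧ S G f φ' = 0 := by
  classical
  -- the swapped map
  let σ : Fin 4 → Fin 4 := ![1, 0, 3, 2]
  let ψ : V → X := Function.extend (fun p : J × Fin 4 => c p.1 p.2)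
    (fun p => φ (c p.1 (σ p.2))) φ
  have hψ : ∀ i a, ψ (c i a) = φ (c i (σ a)) := fun i a =>
    hc.extend_apply (fun p : J × Fin 4 => φ (c p.1 (σ p.2))) φ (i, a)
  have hψ0 : ∀ i, ψ (c i 0) = φ (c i 1) := fun i => hψ i 0
  have hψ1 : ∀ i, ψ (c i 1) = φ (c i 0) := fun i => hψ i 1
  have hψ2 : ∀ i, ψ (c i 2) = φ (c i 3) := fun i => hψ i 2
  have hψ3 : ∀ i, ψ (c i 3) = φ (c i 2) := fun i => hψ i 3
  have hcne : ∀ i j a b, (i ≠ j ∨ a ≠ b) → c i a ≠ c j b := by
    intro i j a b hor h
    have := hc (a₁ := (i, a)) (a₂ := (j, b)) h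
    rw [Prod.ext_iff] at this
    rcases hor with h' | h'
    · exact h' this.1
    · exact h' this.2
  let W : J × Bool → Finset V := fun p => if p.2 = true then {c p.1 2, c p.1 3} else {c p.1 0, c p.1 1}
  have hWt : ∀ i, W (i, true) = {c i 2, c i 3} := fun i => by simp [W]
  have hWf : ∀ i, W (i, false) = {c i 0, c i 1} := fun i => by simp [W]
  have hW : ∀ p p', p ≠ p' → Disjoint (W p) (W p') := by
    rintro ⟨i, x⟩ ⟨j, y⟩ hne
    rw [disjoint_left]
    intro v hv hv'
    rcases x with _ | _ <;> rcases y with _ | _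
    · have hij : i ≠ j := fun h => hne (by rw [h])
      rw [hWf] at hv hv'
      simp only [mem_insert, mem_singleton] at hv hv'
      rcases hv with rfl | rfl <;> rcases hv' with h | h <;> exact hcne _ _ _ _ (Or.inl hij) h
    · rw [hWf] at hv
      rw [hWt] at hv'
      simp only [mem_insert, mem_singleton] at hv hv'
      rcases hv with rfl | rfl <;> rcases hv' with h | h <;>
        exact hcne _ _ _ _ (Or.inr (by decide)) h
    · rw [hWt] at hv
      rw [hWf] at hv'
      simp only [mem_insert, mem_singleton] at hv hv'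
      rcases hv with rfl | rfl <;> rcases hv' with h | h <;>
        exact hcne _ _ _ _ (Or.inr (by decide)) h
    · have hij : i ≠ j := fun h => hne (by rw [h])
      rw [hWt] at hv hv'
      simp only [mem_insert, mem_singleton] at hv hv'
      rcases hv with rfl | rfl <;> rcases hv' with h | h <;> exact hcne _ _ _ _ (Or.inl hij) h
  have hquad := isQuad_blocks G f φ ψ W hW
  set F : Finset (J × Bool) → A := fun Y => S G f (mix φ ψ (Y.biUnion W)) with hF
  set a : J × Bool → A := fun i => S G f (mix φ ψ (W i)) - S G f φ with ha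
  set Bq : J × Bool → J × Bool → A :=
    fun i j => ∑ u ∈ W i, ∑ v ∈ W j, if G.Adj u v then d2 f φ ψ u v else 0 with hBq
  have hF0 : F ∅ = S G f φ := by simp only [hF, biUnion_empty, mix_empty]
  -- invariants of all partial swaps
  have hinv : ∀ Z : Finset (J × Bool), Function.Injective (mix φ ψ (Z.biUnion W)) ∧
      (∀ v, mix φ ψ (Z.biUnion W) v ∈ X1) ∧ F Z ∈ H := by
    intro Z
    induction Z using Finset.induction_on with
    | empty =>
      refine ⟨?_, ?_, ?_⟩
      · rw [biUnion_empty, mix_empty]; exact hφi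
      · rw [biUnion_empty, mix_empty]; exact hφX
      · rw [hF0]; exact hS
    | insert p Z hp ih =>
      obtain ⟨ih1, ih2, ih3⟩ := ih
      have hdis : Disjoint (W p) (Z.biUnion W) := by
        rw [disjoint_biUnion_right]
        intro j hj
        exact hW p j (fun h => hp (h ▸ hj))
      obtain ⟨i, x⟩ := p
      have key : ∃ u v, W (i, x) = {u, v} ∧ u ≠ v ∧ ψ u = φ v ∧ ψ v = φ u ∧
          ∀ y ∈ X1, y ≠ φ u → y ≠ φ v → f s(y, φ u) - f s(y, φ v) ∈ H := by
        rcases x with _ | _
        · exact ⟨c i 0, c i 1, hWf i, hcne _ _ _ _ (Or.inr (by decide)), hψ0 i, hψ1 i, htw1 i⟩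
        · exact ⟨c i 2, c i 3, hWt i, hcne _ _ _ _ (Or.inr (by decide)), hψ2 i, hψ3 i, htw2 i⟩
      obtain ⟨u, v, hWuv, huv, hu, hv, htw⟩ := key
      rw [hWuv] at hdis
      have huZ : u ∉ Z.biUnion W := fun h => disjoint_left.1 hdis (by simp) h
      have hvZ : v ∉ Z.biUnion W := fun h => disjoint_left.1 hdis (by simp) h
      have hms := mix_swap φ ψ (Z.biUnion W) u v huv huZ hvZ hu hv
      have hmu : mix φ ψ (Z.biUnion W) u = φ u := by simp [mix, huZ]
      have hmv : mix φ ψ (Z.biUnion W) v = φ v := by simp [mix, hvZ]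
      refine ⟨?_, ?_, ?_⟩
      · rw [biUnion_insert, hWuv, hms]
        exact ih1.comp (Equiv.injective _)
      · rw [biUnion_insert, hWuv, hms]
        intro t
        exact ih2 _
      · simp only [hF]
        rw [biUnion_insert, hWuv, hms]
        have h1 := S_swap_mem H G f (mix φ ψ (Z.biUnion W)) u v (by
          intro t htu htv
          rw [hmu, hmv]
          apply htw _ (ih2 t)
          · intro h; rw [← hmu] at h; exact htu (ih1 h)
          · intro h; rw [← hmv] at h; exact htv (ih1 h))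
        have h2 := H.add_mem h1 ih3
        simp only [hF, sub_add_cancel] at h2
        exact h2
  have haH : ∀ p, a p ∈ H := by
    intro p
    have h1 := (hinv {p}).2.2
    simp only [hF, singleton_biUnion] at h1
    simp only [ha]
    exact H.sub_mem h1 hS
  have hBqH : ∀ p p', p ≠ p' → Bq p p' ∈ H := by
    intro p p' hne
    have h1 := hquad p {p'} (by simpa using hne)
    rw [sum_singleton] at h1
    have h2 : Bq p p' = F (insert p {p'}) - F {p'} - a p := by
      rw [h1]; abel
    rw [h2]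
    exact H.sub_mem (H.sub_mem (hinv _).2.2 (hinv _).2.2) (haH p)
  have hyy : ∀ i j, i ≠ j → Bq (i, false) (j, false) = 0 := by
    intro i j hij
    simp only [hBq]
    rw [hWf, hWf, d2_swaps G f φ ψ _ _ _ _ (hcne _ _ _ _ (Or.inr (by decide)))
      (hcne _ _ _ _ (Or.inr (by decide))) (hψ0 i) (hψ1 i) (hψ0 j) (hψ1 j)]
    obtain ⟨b1, b2, b3, b4⟩ := hb i j hij
    simp only [b1, b2, b3, b4]
    split_ifs <;> simp
  have hyb : ∀ i, Bq (i, false) (i, true) ∉ μ i := by
    intro i
    simp only [hBq]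
    rw [hWf, hWt, d2_swaps G f φ ψ _ _ _ _ (hcne _ _ _ _ (Or.inr (by decide)))
      (hcne _ _ _ _ (Or.inr (by decide))) (hψ0 i) (hψ1 i) (hψ2 i) (hψ3 i)]
    rw [if_neg (hiso i (c i 0)), if_neg (hiso i (c i 1))]
    have hd := hdist i
    by_cases h1 : G.Adj (c i 0) (c i 2)
    · have h2 : ¬ G.Adj (c i 1) (c i 2) := fun h => hd ⟨fun _ => h, fun _ => h1⟩
      rw [if_pos h1, if_neg h2]
      simpa using hdel i
    · have h2 : G.Adj (c i 1) (c i 2) := by
        by_contra h
        exact hd ⟨fun h' => absurd h' h1, fun h' => absurd h' h⟩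
      rw [if_neg h1, if_pos h2]
      intro h
      apply hdel i
      have := (μ i).neg_mem h
      simpa using this
  have hyb0 : ∀ i j, i ≠ j → Bq (i, false) (j, true) = 0 := by
    intro i j hij
    simp only [hBq]
    rw [hWf, hWt, d2_swaps G f φ ψ _ _ _ _ (hcne _ _ _ _ (Or.inr (by decide)))
      (hcne _ _ _ _ (Or.inr (by decide))) (hψ0 i) (hψ1 i) (hψ2 j) (hψ3 j)]
    rw [if_neg (hiso j (c i 0)), if_neg (hiso j (c i 1))]
    have hd := hcross i j hij
    by_cases h1 : G.Adj (c i 0) (c j 2)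
    · rw [if_pos h1, if_pos (hd.1 h1)]; simp
    · rw [if_neg h1, if_neg (fun h => h1 (hd.2 h))]; simp
  -- the b-flips
  set B : Finset J := univ.filter (fun j => a (j, false) ∈ μ j) with hB
  set D : J → A := fun j => a (j, false) + (if j ∈ B then Bq (j, false) (j, true) else 0) with hD
  have hDH : ∀ j, D j ∈ H := by
    intro j
    simp only [hD]
    apply H.add_mem (haH _)
    split_ifs
    · exact hBqH _ _ (by simp)
    · exact H.zero_mem
  have hDμ : ∀ j, D j ∉ μ j := by
    intro j h
    simp only [hD] at h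
    by_cases hj : j ∈ B
    · have h1 : a (j, false) ∈ μ j := (mem_filter.1 hj).2
      rw [if_pos hj, (μ j).add_mem_cancel_left h1] at h
      exact hyb j h
    · rw [if_neg hj, add_zero] at h
      exact hj (mem_filter.2 ⟨mem_univ _, h⟩)
  obtain ⟨Y, hY⟩ := subset_sum k hk hA H μ D hDH hDμ hN
    (- F (B.image (fun i => (i, true)))) (H.neg_mem (hinv _).2.2)
  have hsum : ∀ Y' : Finset J,
      F (Y'.image (fun i => (i, false)) ∪ B.image (fun i => (i, true)))
        = F (B.image (fun i => (i, true))) + ∑ j ∈ Y', D j := by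
    intro Y'
    induction Y' using Finset.induction_on with
    | empty => simp
    | insert i Y' hi ih =>
      rw [image_insert, insert_union, hquad (i, false) _ (by simpa using hi),
        ih, sum_insert hi]
      have hdj : Disjoint (Y'.image (fun i => (i, false))) (B.image (fun i => (i, true))) := by
        rw [disjoint_left]
        intro p hp hp'
        rw [mem_image] at hp hp'
        obtain ⟨x, _, rfl⟩ := hp
        obtain ⟨y, _, hy⟩ := hp'
        simp at hy
      rw [sum_union hdj, sum_image (fun x _ y _ hxy => (Prod.ext_iff.1 hxy).1),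
        sum_image (fun x _ y _ hxy => (Prod.ext_iff.1 hxy).1)]
      have h0 : ∑ j ∈ Y', Bq (i, false) (j, false) = 0 :=
        sum_eq_zero (fun j hj => hyy i j (fun h => hi (h ▸ hj)))
      have h1 : ∑ j ∈ B, Bq (i, false) (j, true)
          = if i ∈ B then Bq (i, false) (i, true) else 0 := by
        by_cases hiB : i ∈ B
        · rw [if_pos hiB]
          exact sum_eq_single_of_mem i hiB (fun j _ hj => hyb0 i j (Ne.symm hj))
        · rw [if_neg hiB]
          exact sum_eq_zero (fun j hj => hyb0 i j (fun h => hiB (h ▸ hj)))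
      rw [h0, h1, zero_add]
      simp only [hD]
      abel
  have hfin := hsum Y
  rw [hY, add_neg_cancel] at hfin
  exact ⟨_, (hinv _).1, hfin⟩

end Pool.Agent.Q310.ZS
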