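import Mathlib
import Pool.Agent.Q310.ZS.Step
import Pool.Agent.Q310.ZS.GS
import Pool.Agent.H730R3.MainA
import Pool.Agent.H730R3.Main

set_option autoImplicit false
set_option linter.all false

/-! Main assembly over a finite abelian group `A`: `R(G, A) ≤ n + c(A)` for every graph `G` on `n`
vertices whose number of edges is a multiple of the exponent of `A`. -/

namespace Pool.Agent.Q310.ZS

open Finset Pool.Agent.H730R3

theorem mainCaseA (A : Type) [AddCommGroup A] [Fintype A] (k : ℕ) (hkpos : 0 < k)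
    (hA : ∀ a : A, k • a = 0) : ∃ TG : ℕ, ∃ c : ℕ, ∀ (V X : Type) [Fintype V]
    [DecidableEq V] [Fintype X] [DecidableEq X] (G : SimpleGraph V) [DecidableRel G.Adj]
    (cG : Fin TG → Fin 3 → V), Function.Injective (fun p : Fin TG × Fin 3 => cG p.1 p.2) →
    (∀ i, ¬ (G.Adj (cG i 0) (cG i 2) ↔ G.Adj (cG i 1) (cG i 2))) →
    (∀ i j, i ≠ j → (G.Adj (cG i 0) (cG j 2) ↔ G.Adj (cG i 1) (cG j 2))) →
    ∀ (U : Finset V) (b : Prop), (∀ i, cG i 0 ∈ U ∧ cG i 1 ∈ U) →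
    (∀ u ∈ U, ∀ v ∈ U, u ≠ v → (G.Adj u v ↔ b)) →
    k ∣ G.edgeFinset.card → Fintype.card V + c ≤ Fintype.card X → ∀ (f : Sym2 X → A),
      ∃ ρ : V → X, Function.Injective ρ ∧ S G f ρ = 0 := by
  classical
  obtain ⟨M0, hM0⟩ := processA A k hkpos hA
  obtain ⟨T1, hT1⟩ := block_ramseyA A k hA (Fintype.card A)
  haveI : Fintype (AddSubgroup A) := Fintype.ofFinite _
  obtain ⟨s, ⟨en⟩⟩ : ∃ s : ℕ, Nonempty (AddSubgroup A ≃ Fin s) :=
    ⟨Fintype.card (AddSubgroup A), ⟨Fintype.equivFin _⟩⟩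
  obtain ⟨d, K, hfs⟩ := fstruct A (T1 + 4 * T1 * s + (M0 + 2))
  refine ⟨T1 * s, T1 * s + (d + K * (M0 + 2) + (M0 + 2)), ?_⟩
  intro V X _ _ _ _ G _ cG hcG hdist hcross U b hU hhom hk hcard f
  -- structure of the colouring
  obtain ⟨H, X1, cl, hX1, hcl, hcyc⟩ := hfs X f
  have hX1c : Fintype.card V + T1 * s + K * (M0 + 2) + (M0 + 2) ≤ X1.card := by omega
  -- the twin set `Z`
  have hX1ne : X1.Nonempty := by rw [← card_pos]; omega
  have hKne : (univ : Finset (Fin K)).Nonempty := by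
    obtain ⟨x, hx⟩ := hX1ne
    exact ⟨cl x, mem_univ _⟩
  obtain ⟨β, -, hβ⟩ := Finset.exists_le_card_fiber_of_mul_le_card_of_maps_to
    (s := X1) (t := (univ : Finset (Fin K))) (f := cl) (n := M0 + 2)
    (fun _ _ => mem_univ _) hKne (by rw [card_univ, Fintype.card_fin]; omega)
  obtain ⟨Z, hZsub, hZc⟩ := Finset.exists_subset_card_eq hβ
  have hZ1 : ∀ z ∈ Z, z ∈ X1 := fun z hz => (mem_filter.1 (hZsub hz)).1
  have hZcl : ∀ z ∈ Z, cl z = β := fun z hz => (mem_filter.1 (hZsub hz)).2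
  obtain ⟨z0, hz0, z1, hz1, hz01⟩ := Finset.one_lt_card.1 (by omega : 1 < Z.card)
  -- the modified colouring
  set f' : Sym2 X → A := Function.update f s(z0, z0) (f s(z0, z1)) with hf'
  have hf'ne : ∀ x y, x ≠ y → f' s(x, y) = f s(x, y) := by
    intro x y hxy
    rw [hf', Function.update_of_ne]
    intro h
    rw [Sym2.eq_iff] at h
    apply hxy
    rcases h with h | h <;> rw [h.1, h.2]
  have hf'00 : f' s(z0, z0) = f s(z0, z1) := by rw [hf', Function.update_self]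
  have htwZ : ∀ x ∈ X1, ∀ z ∈ Z, ∀ z' ∈ Z, x ≠ z → x ≠ z' → f s(x, z) - f s(x, z') ∈ H := by
    intro x hx z hz z' hz' h1 h2
    exact hcl z (hZ1 z hz) z' (hZ1 z' hz') (by rw [hZcl z hz, hZcl z' hz']) x hx h1 h2
  set X0 := X1 \ Z with hX0
  have hX0c : Fintype.card V + T1 * s ≤ X0.card := by
    have := Finset.le_card_sdiff Z X1
    rw [← hX0, hZc] at this
    omega
  have hX01 : ∀ x ∈ X0, x ∈ X1 ∧ x ∉ Z := fun x hx => mem_sdiff.1 hx
  have hz0X0 : z0 ∉ X0 := fun h => (hX01 z0 h).2 hz0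
  -- the proper subgroups
  let Mof : ℕ → AddSubgroup A := fun q => if h : q < s then en.symm ⟨q, h⟩ else ⊤
  have hMof : ∀ M : AddSubgroup A, Mof (en M).1 = M := by
    intro M
    have h1 : (en M).1 < s := (en M).2
    simp only [Mof, dif_pos h1, Fin.eta, Equiv.symm_apply_apply]
  set P := (range s).filter (fun q => Mof q < H) with hP
  have hPlt : ∀ q ∈ P, q < s := fun q hq => mem_range.1 (mem_filter.1 hq).1
  have hPH : ∀ q ∈ P, Mof q < H := fun q hq => (mem_filter.1 hq).2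
  have hPcard : P.card ≤ s := by
    have : P ⊆ range s := fun q hq => mem_range.2 (hPlt q hq)
    have := card_le_card this
    rwa [card_range] at this
  -- cycles of the colouring
  have hfam : ∀ q, ∃ c : Fin (T1 + 4 * T1 * s + (M0 + 2)) → Fin 4 → X, q ∈ P →
      Function.Injective (fun p : Fin (T1 + 4 * T1 * s + (M0 + 2)) × Fin 4 => c p.1 p.2) ∧
      ∀ i, (∀ l, c i l ∈ X1) ∧ cl (c i 0) = cl (c i 1) ∧ cl (c i 2) = cl (c i 3) ∧
        Del f (c i 0) (c i 1) (c i 2) (c i 3) ∉ Mof q := by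
    intro q
    by_cases hq : q ∈ P
    · obtain ⟨c, h1, h2⟩ := hcyc _ (hPH q hq)
      exact ⟨c, fun _ => ⟨h1, h2⟩⟩
    · exact ⟨fun _ _ => z0, fun h => absurd h hq⟩
  choose fam hfam using hfam
  obtain ⟨e, he1, he2⟩ := select (T1 := T1) (s := M0 + 2) fam Z hZc.le P
    (fun q hq => (hfam q hq).1) (by
      have : 4 * T1 * P.card ≤ 4 * T1 * s := Nat.mul_le_mul_left _ hPcard
      omega)
  let p : ℕ → Fin T1 → Fin 4 → X := fun q i l => fam q (e q i) l
  have hpX0 : ∀ q ∈ P, ∀ i l, p q i l ∈ X0 := by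
    intro q hq i l
    rw [hX0, mem_sdiff]
    exact ⟨((hfam q hq).2 (e q i)).1 l, he1 q hq i l⟩
  have hpinj : ∀ q ∈ P, ∀ q' ∈ P, ∀ i i' l l', p q i l = p q' i' l' → q = q' ∧ i = i' ∧ l = l' :=
    he2
  -- the extended graph
  let V2 := V ⊕ Fin (T1 * s)
  let inl : V ↪ V2 := Function.Embedding.inl
  let G2 : SimpleGraph V2 := G.map inl
  have hG2adj : ∀ u v : V, G2.Adj (Sum.inl u) (Sum.inl v) ↔ G.Adj u v := by
    intro u v
    exact SimpleGraph.map_adj_apply (f := inl)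
  have hG2iso : ∀ (w : V2) (j : Fin (T1 * s)), ¬ G2.Adj w (Sum.inr j) := by
    intro w j h
    rw [SimpleGraph.map_adj] at h
    obtain ⟨u, v, _, _, h3⟩ := h
    exact Sum.inl_ne_inr h3
  let cV : Fin T1 → Fin s → Fin 4 → V2 := fun i q =>
    ![Sum.inl (cG (finProdFinEquiv (i, q)) 0), Sum.inl (cG (finProdFinEquiv (i, q)) 1),
      Sum.inl (cG (finProdFinEquiv (i, q)) 2), Sum.inr (finProdFinEquiv (i, q))]
  have hcGi : ∀ i j a b, cG i a = cG j b → i = j ∧ a = b := by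
    intro i j a b h
    have := hcG (a₁ := (i, a)) (a₂ := (j, b)) h
    exact Prod.ext_iff.1 this
  have hcV : ∀ i q l i' q' l', cV i q l = cV i' q' l' → i = i' ∧ q = q' ∧ l = l' := by
    intro i q l i' q' l' h
    have key : finProdFinEquiv (i, q) = finProdFinEquiv (i', q') ∧ l = l' :=
      vec4_inj hcGi _ _ l l' h
    have h1 := finProdFinEquiv.injective key.1
    rw [Prod.ext_iff] at h1
    exact ⟨h1.1, h1.2, key.2⟩
  have hcVinj : Function.Injective (fun t : Fin T1 × Fin s × Fin 4 => cV t.1 t.2.1 t.2.2) := by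
    rintro ⟨i, q, l⟩ ⟨i', q', l'⟩ h
    obtain ⟨h1, h2, h3⟩ := hcV i q l i' q' l' h
    rw [h1, h2, h3]
  let ψ : V2 → X := Function.extend
    (fun t : Fin T1 × Fin s × Fin 4 => cV t.1 t.2.1 t.2.2)
    (fun t => p t.2.1.1 t.1 t.2.2) (fun _ => z0)
  have hψ : ∀ i q l, ψ (cV i q l) = p q.1 i l := fun i q l =>
    hcVinj.extend_apply (fun t : Fin T1 × Fin s × Fin 4 => p t.2.1.1 t.1 t.2.2)
      (fun _ => z0) (i, q, l)
  let W : Fin T1 → Finset V2 := fun i =>
    univ.filter (fun v => ∃ q : Fin s, q.1 ∈ P ∧ ∃ l, v = cV i q l)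
  have hW : ∀ i j, i ≠ j → Disjoint (W i) (W j) := by
    intro i j hij
    rw [disjoint_left]
    intro v hv hv'
    obtain ⟨q, _, l, h1⟩ := (mem_filter.1 hv).2
    obtain ⟨q', _, l', h2⟩ := (mem_filter.1 hv').2
    rw [h1] at h2
    exact hij (hcV _ _ _ _ _ _ h2).1
  let χ0 : V2 → X := fun _ => z0
  have hχ0 : S G2 f' χ0 = 0 := by
    have h1 : S G2 f' χ0 = S G f' (χ0 ∘ inl) := S_map_inl G inl f' χ0
    rw [h1]
    unfold S
    have h2 : ∀ e ∈ G.edgeFinset, f' (Sym2.map (χ0 ∘ inl) e) = f' s(z0, z0) := by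
      intro e _
      induction e using Sym2.ind with
      | _ u v => rfl
    rw [sum_congr rfl h2, sum_const, nsmul_zero_of_dvd hA _ hk]
  obtain ⟨Y, -, hYc, hYF⟩ := hT1 (Fin T1) _ _ _ (isQuad_blocks G2 f' χ0 ψ W hW) univ
    (by rw [card_univ, Fintype.card_fin])
  simp only [biUnion_empty, mix_empty] at hYF
  rw [hχ0] at hYF
  set W0 := Y.biUnion W with hW0
  have hW0mem : ∀ v, v ∈ W0 ↔ ∃ i ∈ Y, ∃ q : Fin s, q.1 ∈ P ∧ ∃ l, v = cV i q l := by
    intro v
    rw [hW0, mem_biUnion]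
    constructor
    · rintro ⟨i, hi, h⟩
      exact ⟨i, hi, (mem_filter.1 h).2⟩
    · rintro ⟨i, hi, h⟩
      exact ⟨i, hi, mem_filter.2 ⟨mem_univ _, h⟩⟩
  have hχ1a : ∀ v ∈ W0, mix χ0 ψ W0 v ∈ X0 := by
    intro v hv
    have h1 : mix χ0 ψ W0 v = ψ v := by simp [mix, hv]
    rw [h1]
    obtain ⟨i, _, q, hq, l, rfl⟩ := (hW0mem v).1 hv
    rw [hψ]
    exact hpX0 _ hq _ _
  have hχ1b : ∀ v, v ∉ W0 → mix χ0 ψ W0 v = z0 := fun v hv => by simp [mix, hv, χ0]
  -- run the process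
  obtain ⟨χ2, h21, h22, h23, h24, h25⟩ := hM0 V2 X G2 f' z0 X0 hz0X0
    (by rw [Fintype.card_sum, Fintype.card_fin]; exact hX0c) (mix χ0 ψ W0) (by
      intro v
      by_cases hv : v ∈ W0
      · exact Or.inr (hχ1a v hv)
      · exact Or.inl (hχ1b v hv)) (by
      intro v w hvw hne
      by_cases hv : v ∈ W0
      · by_cases hw : w ∈ W0
        · have e1 : mix χ0 ψ W0 v = ψ v := by simp [mix, hv]
          have e2 : mix χ0 ψ W0 w = ψ w := by simp [mix, hw]
          rw [e1, e2] at hvw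
          obtain ⟨i, _, q, hq, l, rfl⟩ := (hW0mem v).1 hv
          obtain ⟨i', _, q', hq', l', rfl⟩ := (hW0mem w).1 hw
          rw [hψ, hψ] at hvw
          obtain ⟨h1, h2, h3⟩ := hpinj _ hq _ hq' _ _ _ _ hvw
          rw [Fin.ext h1, h2, h3]
        · exfalso
          rw [hvw] at hne
          exact hne (hχ1b w hw)
      · exact absurd (hχ1b v hv) hne)
  have hdisj : Disjoint X0 Z := by rw [hX0]; exact sdiff_disjoint
  obtain ⟨φ, hφi, hφX, hφ2, hφS⟩ := unstack H G2 f' z0 X0 Z hdisj hz0 (by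
      intro z hz x hx
      obtain ⟨hx1, hxZ⟩ := hX01 x hx
      have hxz : x ≠ z := fun h => hxZ (h ▸ hz)
      have hxz0 : x ≠ z0 := fun h => hxZ (h ▸ hz0)
      rw [hf'ne x z hxz, hf'ne x z0 hxz0]
      exact htwZ x hx1 z hz z0 hz0 hxz hxz0) (by
      intro z hz z' hz' hzz
      rw [hf'ne z z' hzz, hf'00]
      by_cases h : z = z1
      · subst h
        rw [Sym2.eq_swap (a := z0)]
        exact htwZ z (hZ1 z hz) z' hz' z0 hz0 hzz (Ne.symm hz01)
      · have a1 := htwZ z (hZ1 z hz) z' hz' z1 hz1 hzz h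
        have a2 := htwZ z1 (hZ1 z1 hz1) z hz z0 hz0 (Ne.symm h) (Ne.symm hz01)
        rw [Sym2.eq_swap (a := z1) (b := z), Sym2.eq_swap (a := z1) (b := z0)] at a2
        have a3 := H.add_mem a1 a2
        rwa [sub_add_sub_cancel] at a3) χ2 h21 h22 (by omega)
  have hφX1 : ∀ v, φ v ∈ (X1 : Set X) := by
    intro v
    rw [mem_coe]
    rcases mem_union.1 (hφX v) with h | h
    · exact (hX01 _ h).1
    · exact hZ1 _ h
  have hφH : S G2 f' φ ∈ H := by
    rw [h23, hYF, sub_zero] at hφS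
    exact hφS
  have hφpos : ∀ i ∈ Y, ∀ q : Fin s, q.1 ∈ P → ∀ l, φ (cV i q l) = p q.1 i l := by
    intro i hi q hq l
    have hmem : cV i q l ∈ W0 := (hW0mem _).2 ⟨i, hi, q, hq, l, rfl⟩
    have h1 : mix χ0 ψ W0 (cV i q l) = p q.1 i l := by
      rw [← hψ]; simp [mix, hmem]
    have hne : p q.1 i l ≠ z0 := fun h => hz0X0 (h ▸ hpX0 _ hq i l)
    have h2 := h24 (cV i q l) (by rw [h1]; exact hne)
    rw [h1] at h2
    rw [hφ2 _ (by rw [h2]; exact hne), h2]
  -- the gadgets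
  let J := {t : Fin T1 × Fin s // t.1 ∈ Y ∧ t.2.1 ∈ P}
  have hpos : ∀ (t : J) l, φ (cV t.1.1 t.1.2 l) = p t.1.2.1 t.1.1 l := fun t l =>
    hφpos t.1.1 t.2.1 t.1.2 t.2.2 l
  have hne3 : ∀ t t' : J, t ≠ t' → finProdFinEquiv t.1 ≠ finProdFinEquiv t'.1 := by
    intro t t' htt h
    exact htt (Subtype.ext (finProdFinEquiv.injective h))
  obtain ⟨φf, k1, hzero⟩ := finalStep k hkpos hA G2 f' H (fun t : J => Mof t.1.2.1)
    (X1 : Set X) φ hφi hφX1 (fun t l => cV t.1.1 t.1.2 l) (by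
      rintro ⟨t, l⟩ ⟨t', l'⟩ h
      obtain ⟨h1, h2, h3⟩ := hcV _ _ _ _ _ _ h
      exact Prod.ext (Subtype.ext (Prod.ext h1 h2)) h3) b (by
      intro i j hij
      have hne := hne3 i j hij
      have hh : ∀ a b' : Fin 3, (a = 0 ∨ a = 1) → (b' = 0 ∨ b' = 1) →
          (G.Adj (cG (finProdFinEquiv i.1) a) (cG (finProdFinEquiv j.1) b') ↔ b) := by
        intro a b' ha hb'
        apply hhom
        · rcases ha with rfl | rfl
          · exact (hU _).1
          · exact (hU _).2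
        · rcases hb' with rfl | rfl
          · exact (hU _).1
          · exact (hU _).2
        · intro h
          exact hne (hcGi _ _ _ _ h).1
      refine ⟨?_, ?_, ?_, ?_⟩
      · exact (hG2adj _ _).trans (hh 0 0 (Or.inl rfl) (Or.inl rfl))
      · exact (hG2adj _ _).trans (hh 0 1 (Or.inl rfl) (Or.inr rfl))
      · exact (hG2adj _ _).trans (hh 1 0 (Or.inr rfl) (Or.inl rfl))
      · exact (hG2adj _ _).trans (hh 1 1 (Or.inr rfl) (Or.inr rfl))) (by
      intro i j hij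
      exact (hG2adj _ _).trans ((hcross _ _ (hne3 i j hij)).trans (hG2adj _ _).symm)) (by
      intro i h
      apply hdist (finProdFinEquiv i.1)
      exact ((hG2adj _ _).symm.trans h).trans (hG2adj _ _)) (by
      intro i v
      exact hG2iso v _) (by
      intro i x hx hx1 hx2
      have hi := (hfam i.1.2.1 i.2.2).2 (e i.1.2.1 i.1.1)
      rw [hpos, hpos] at *
      rw [hf'ne x _ hx1, hf'ne x _ hx2]
      exact hcl _ (hi.1 0) _ (hi.1 1) hi.2.1 x (mem_coe.1 hx) hx1 hx2) (by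
      intro i x hx hx1 hx2
      have hi := (hfam i.1.2.1 i.2.2).2 (e i.1.2.1 i.1.1)
      rw [hpos, hpos] at *
      rw [hf'ne x _ hx1, hf'ne x _ hx2]
      exact hcl _ (hi.1 2) _ (hi.1 3) hi.2.2.1 x (mem_coe.1 hx) hx1 hx2) (by
      intro i
      have hi := (hfam i.1.2.1 i.2.2).2 (e i.1.2.1 i.1.1)
      rw [hpos, hpos, hpos, hpos]
      have hne : ∀ a b' : Fin 4, a ≠ b' → p i.1.2.1 i.1.1 a ≠ p i.1.2.1 i.1.1 b' := by
        intro a b' hab h
        exact hab (hpinj _ i.2.2 _ i.2.2 _ _ _ _ h).2.2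
      have hd : Del f' (p i.1.2.1 i.1.1 0) (p i.1.2.1 i.1.1 1) (p i.1.2.1 i.1.1 2)
          (p i.1.2.1 i.1.1 3) = Del f (p i.1.2.1 i.1.1 0) (p i.1.2.1 i.1.1 1)
          (p i.1.2.1 i.1.1 2) (p i.1.2.1 i.1.1 3) := by
        unfold Del
        rw [hf'ne _ _ (hne 2 0 (by decide)), hf'ne _ _ (hne 2 1 (by decide)),
          hf'ne _ _ (hne 3 0 (by decide)), hf'ne _ _ (hne 3 1 (by decide))]
      rw [hd]
      exact hi.2.2.2) hφH (by
      intro M hM
      have hMP : (en M).1 ∈ P := by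
        rw [hP, mem_filter, mem_range]
        exact ⟨(en M).2, by rw [hMof]; exact hM⟩
      let g : Y ↪ J := ⟨fun i => ⟨(i.1, en M), i.2, hMP⟩, by
        intro i j hij
        have := congrArg (fun t : J => t.1.1) hij
        exact Subtype.ext this⟩
      refine ⟨univ.map g, ?_, ?_⟩
      · rw [card_map, card_univ, Fintype.card_coe, hYc]
        nlinarith [Nat.zero_le (k * Fintype.card A)]
      · intro t ht
        rw [mem_map] at ht
        obtain ⟨i, _, rfl⟩ := ht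
        exact hMof M)
  refine ⟨φf ∘ inl, k1.comp inl.injective, ?_⟩
  rw [← S_map_inl G inl f φf, ← S_update_diag G2 f z0 (f s(z0, z1)) φf k1]
  exact hzero

/-- `R(G, A) ≤ |G| + c(A)` for every finite abelian group `A`, uniformly over all finite graphs `G` whose
number of edges is a multiple of `k`, where `k • A = 0`. -/
theorem mainA (A : Type) [AddCommGroup A] [Fintype A] (k : ℕ) (hkpos : 0 < k)
    (hA : ∀ a : A, k • a = 0) : ∃ c : ℕ, ∀ (V X : Type) [Fintype V] [DecidableEq V] [Fintype X]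
    [DecidableEq X] (G : SimpleGraph V) [DecidableRel G.Adj], k ∣ G.edgeFinset.card →
    Fintype.card V + c ≤ Fintype.card X → ∀ (f : Sym2 X → A),
      ∃ ρ : V → X, Function.Injective ρ ∧ S G f ρ = 0 := by
  classical
  obtain ⟨TG, c1, h1⟩ := mainCaseA A k hkpos hA
  obtain ⟨Q, hQ⟩ := gstruct2 TG
  obtain ⟨c2, h2⟩ := lemmaBA A k hkpos hA Q
  refine ⟨c1 + c2, ?_⟩
  intro V X _ _ _ _ G _ hk hcard f
  rcases hQ V G with ⟨cl, hcl⟩ | ⟨c, hc1, hc2, hc3, U, b, hU, hhom⟩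
  · exact h2 V X G cl hcl hk (by omega) f
  · exact h1 V X G c hc1 hc2 hc3 U b hU hhom hk (by omega) f

end Pool.Agent.Q310.ZS
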